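import Mathlib
import Pool.Agent.Results.MP_a3aa3c_co.NoGQ4_11

/-!
# No generalized quadrangle of order `(4, 12)`, and none of order `(n, n^2 - n)`, `n ≥ 3`

For a point `p` let `P_p` be the projection onto the vectors of the eigenspace of the least
eigenvalue of the collinearity graph which vanish on `p` and on its neighbours. For `t = s^2 - s`
the sums of `trace (P_p P_x)` and of `trace (P_p P_x P_p P_x)` over the points `x` force all nonzero
eigenvalues of `P_p P_x P_p`, `x` not collinear with `p`, to be equal to `((s - 1) / s)^2`; the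
trace `((s - 1) / s)^2 r` then gives a rank `r` which is not an integer. The linear algebra is the
theorem `Pool.Agent.H253_GQ.no_GQMat` of the starting library (`Pool/Agent/H253_GQ/Core.lean`).
-/

universe u v

namespace Pool.Agent.Results.MP_a3aa3c_co.NoGQ4_12

open Pool.Agent.Results.MP_a3aa3c_co.NoGQ4_11

/-- **There is no finite generalized quadrangle of order `(4, 12)`; more generally there is none of
order `(n, n^2 - n)` for any `n ≥ 3`.** -/
theorem result (P : Type u) (B : Type v) [Finite P] [Finite B] [Nonempty P] (I : P → B → Prop) :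
    ¬ IsGQ I 4 12 ∧ ∀ n : ℕ, 3 ≤ n → ¬ IsGQ I n (n ^ 2 - n) := by
  classical
  have key : ∀ n : ℕ, 3 ≤ n → ¬ IsGQ I n (n ^ 2 - n) := by
    intro n hn h
    have := Fintype.ofFinite P
    have := Fintype.ofFinite B
    have hA := gqMat h
    have hle : n ≤ n ^ 2 := by nlinarith
    have e : ((n ^ 2 - n : ℕ) : ℝ) + 1 = (n : ℝ) ^ 2 - n + 1 := by
      rw [Nat.cast_sub hle]
      push_cast
      ring
    rw [e] at hA
    exact Pool.Agent.H253_GQ.no_GQMat n hn (Af I) hA
  refine ⟨?_, key⟩
  have h4 := key 4 (by norm_num)
  norm_num at h4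
  exact h4

end Pool.Agent.Results.MP_a3aa3c_co.NoGQ4_12
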